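import Pool.Agent.H705.FP.Stm2

set_option autoImplicit false

/-! TLA (project FP of helper705): tail sums of the squares of the amplitudes with a logarithm. -/

open Finset
open Pool.Agent.H705 Pool.Agent.H705.FP

namespace Pool.Agent.H94.FP

theorem block {a : ℕ → ℝ} {C0 p e : ℝ} (hC0 : 0 ≤ C0) (he : 0 < e)
    (h : ∀ N M : ℕ, 1 ≤ N → N ≤ M → ∑ n ∈ Ico N M, a n ^ 2 ≤ C0 * (N : ℝ) ^ (-(p + e)))
    {N M : ℕ} (hN : 1 ≤ N) (hNM : N ≤ M) (hM : M ≤ 2 * N) :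
    ∑ n ∈ Ico N M, a n ^ 2 * Real.log ((n : ℝ) + 2) ≤ (C0 * ((4 : ℝ) ^ e / e)) * (N : ℝ) ^ (-p) := by
  have hN1 : (1 : ℝ) ≤ N := by exact_mod_cast hN
  have hN0 : (0 : ℝ) < N := by linarith
  have hlog : ∀ n ∈ Ico N M, Real.log ((n : ℝ) + 2) ≤ (4 : ℝ) ^ e / e * (N : ℝ) ^ e := by
    intro n hn
    have h1 : n + 1 ≤ 2 * N := by
      have := (Finset.mem_Ico.1 hn).2
      omega
    have h2 : (n : ℝ) + 1 ≤ 2 * N := by exact_mod_cast h1
    have h3 : (n : ℝ) + 2 ≤ 4 * N := by linarith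
    have h0 : (0 : ℝ) < (n : ℝ) + 2 := by positivity
    calc Real.log ((n : ℝ) + 2) ≤ Real.log (4 * N) := Real.log_le_log h0 h3
      _ ≤ (4 * (N : ℝ)) ^ e / e := Real.log_le_rpow_div (by positivity) he
      _ = (4 : ℝ) ^ e / e * (N : ℝ) ^ e := by
          rw [Real.mul_rpow (by norm_num) hN0.le]
          ring
  calc ∑ n ∈ Ico N M, a n ^ 2 * Real.log ((n : ℝ) + 2) ≤
        ∑ n ∈ Ico N M, a n ^ 2 * ((4 : ℝ) ^ e / e * (N : ℝ) ^ e) :=
        Finset.sum_le_sum fun n hn => mul_le_mul_of_nonneg_left (hlog n hn) (sq_nonneg _)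
    _ = (∑ n ∈ Ico N M, a n ^ 2) * ((4 : ℝ) ^ e / e * (N : ℝ) ^ e) := by rw [Finset.sum_mul]
    _ ≤ (C0 * (N : ℝ) ^ (-(p + e))) * ((4 : ℝ) ^ e / e * (N : ℝ) ^ e) :=
        mul_le_mul_of_nonneg_right (h N M hN hNM) (by positivity)
    _ = (C0 * ((4 : ℝ) ^ e / e)) * ((N : ℝ) ^ (-(p + e)) * (N : ℝ) ^ e) := by ring
    _ = _ := by
        rw [← Real.rpow_add hN0]
        have e1 : -(p + e) + e = -p := by ring
        rw [e1]

theorem T_TLA : P_TLA := by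
  intro a ha m
  obtain ⟨ha0, hamp⟩ := ha
  have hm2 : (0 : ℝ) < (m : ℝ) + 2 := by positivity
  obtain ⟨e, he⟩ : ∃ e : ℝ, e = 1 / (2 * ((m : ℝ) + 2)) := ⟨_, rfl⟩
  have he0 : 0 < e := by
    rw [he]
    positivity
  obtain ⟨C1, hC1⟩ := hamp e he0
  obtain ⟨p, hp⟩ : ∃ p : ℝ, p = RO.pe m := ⟨_, rfl⟩
  have hp0 : 0 < p := by
    rw [hp, RO.pe, sub_pos, div_lt_one hm2]
    have : (0 : ℝ) ≤ m := Nat.cast_nonneg m
    linarith
  have hbd : ∀ N M : ℕ, 1 ≤ N → N ≤ M →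
      ∑ n ∈ Ico N M, a n ^ 2 ≤ |C1| * (N : ℝ) ^ (-(p + e)) := by
    intro N M hN hNM
    refine (hC1 N M hN hNM).trans ?_
    have e1 : (-1 + e) = -(p + e) := by
      rw [hp, RO.pe, he]
      field_simp
      ring
    rw [e1]
    exact mul_le_mul_of_nonneg_right (le_abs_self C1) (Real.rpow_nonneg (Nat.cast_nonneg N) _)
  rw [← hp]
  obtain ⟨B, hB⟩ : ∃ B : ℝ, B = |C1| * ((4 : ℝ) ^ e / e) := ⟨_, rfl⟩
  have hB0 : 0 ≤ B := by
    rw [hB]
    positivity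
  have hblock : ∀ N M : ℕ, 1 ≤ N → N ≤ M → M ≤ 2 * N →
      ∑ n ∈ Ico N M, a n ^ 2 * Real.log ((n : ℝ) + 2) ≤ B * (N : ℝ) ^ (-p) := by
    intro N M hN hNM hM
    rw [hB]
    exact block (abs_nonneg C1) he0 hbd hN hNM hM
  obtain ⟨r, hr⟩ : ∃ r : ℝ, r = (2 : ℝ) ^ (-p) := ⟨_, rfl⟩
  have hr0 : 0 < r := by rw [hr]; exact Real.rpow_pos_of_pos (by norm_num) _
  have hr1 : r < 1 := by
    rw [hr]
    exact Real.rpow_lt_one_of_one_lt_of_neg (by norm_num) (by linarith)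
  have h1r : 0 < 1 - r := by linarith
  obtain ⟨C, hC⟩ : ∃ C : ℝ, C = B / (1 - r) := ⟨_, rfl⟩
  have hC0 : 0 ≤ C := by rw [hC]; positivity
  have hCe : B + C * r = C := by
    rw [hC]
    field_simp
    ring
  have key : ∀ d N M : ℕ, 1 ≤ N → N ≤ M → M ≤ 2 ^ d * N →
      ∑ n ∈ Ico N M, a n ^ 2 * Real.log ((n : ℝ) + 2) ≤ C * (N : ℝ) ^ (-p) := by
    intro d
    induction d with
    | zero =>
      intro N M hN hNM hM
      have h1 : M = N := by
        rw [pow_zero, one_mul] at hM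
        omega
      rw [h1, Finset.Ico_self, Finset.sum_empty]
      exact mul_nonneg hC0 (Real.rpow_nonneg (Nat.cast_nonneg N) _)
    | succ d ih =>
      intro N M hN hNM hM
      have hN0 : (0 : ℝ) < N := by exact_mod_cast hN
      have hNp : 0 ≤ (N : ℝ) ^ (-p) := Real.rpow_nonneg hN0.le _
      rcases le_total M (2 * N) with h1 | h1
      · refine (hblock N M hN hNM h1).trans (mul_le_mul_of_nonneg_right ?_ hNp)
        have : 0 ≤ C * r := mul_nonneg hC0 hr0.le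
        linarith
      · have h2 := hblock N (2 * N) hN (by omega) le_rfl
        have h3 := ih (2 * N) M (by omega) h1 (by rw [pow_succ] at hM; linarith)
        have h4 : ((2 * N : ℕ) : ℝ) ^ (-p) = r * (N : ℝ) ^ (-p) := by
          rw [hr, ← Real.mul_rpow (by norm_num) hN0.le]
          push_cast
          rfl
        rw [h4] at h3
        rw [← Finset.sum_Ico_consecutive _ (by omega : N ≤ 2 * N) h1]
        calc _ ≤ B * (N : ℝ) ^ (-p) + C * (r * (N : ℝ) ^ (-p)) := add_le_add h2 h3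
          _ = (B + C * r) * (N : ℝ) ^ (-p) := by ring
          _ = _ := by rw [hCe]
  refine ⟨C, hC0, fun N M hN hNM => key M N M hN hNM ?_⟩
  calc M ≤ 2 ^ M := (Nat.lt_two_pow_self).le
    _ = 2 ^ M * 1 := (mul_one _).symm
    _ ≤ 2 ^ M * N := Nat.mul_le_mul_left _ hN

end Pool.Agent.H94.FP
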